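import Pool.Agent.Lib.MP_ad7336_sd.Fin

set_option autoImplicit false

namespace Pool.Agent.Results.MP_ad7336_co.DoublingConstant

open Pool.Agent.Lib.MP_ad7336_co Pool.Agent.Lib.MP_ad7336_sd Filter

theorem result : IsGreatest
    {κ : ℝ | ∀ K C ε : ℝ, K < 8 → 0 < ε → ∃ n₀ : ℕ, ∀ Q T A : Finset ℂ, n₀ ≤ Q.card →
        (T.card : ℝ) ≤ C → (A.card : ℝ) ≤ C * Q.card →
        ({z : ℂ | ∃ a ∈ A, ∃ b ∈ A, z = a + b}.ncard : ℝ) ≤ K * A.card →
        (∀ q ∈ Q, ∃ t ∈ T, ∃ a ∈ A, q = t + a) →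
        (κ - ε) * Q.card / √(Real.log Q.card) ≤
          {d : ℝ | ∃ p ∈ Q, ∃ q ∈ Q, p ≠ q ∧ d = dist p q}.ncard}
    (√(2 * √3 / Real.pi ^ 2 *
      ∏' p : Nat.Primes, if (p : ℕ) % 3 = 2 then (1 - 1 / ((p : ℕ) : ℝ) ^ 2)⁻¹ else 1)) := by
  classical
  constructor
  · intro K C ε hK hε
    obtain ⟨H, ha, hb⟩ := exists_hex
    obtain ⟨n₀, h⟩ := eventually_atTop.1 (fin hK C ha hb hε)
    rw [← Sharp.kap_hex ha hb]
    exact ⟨n₀, fun Q T A h1 h2 h3 h4 h5 => (h _ h1 Q T A rfl h2 h3 h4 h5).1⟩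
  · intro κ hκ
    refine le_of_forall_pos_le_add fun ε hε => ?_
    obtain ⟨n₀, h⟩ := hκ 4 81 (ε / 2) (by norm_num) (half_pos hε)
    obtain ⟨n, ⟨Q, q1, q2, q3, q4⟩, h1, h2⟩ := ((sharp _ rfl (ε / 2) (half_pos hε)).2.and
      ((eventually_ge_atTop n₀).and (eventually_ge_atTop 2))).exists
    subst q1
    obtain ⟨t, A, a1, a2, a3⟩ := in_box (Finset.card_pos.1 (by omega)) q2 q3
    have h3 := (h Q {t} A h1 (by simp) (by exact_mod_cast a1)
      (by rw [ncard_add]; exact_mod_cast a2)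
      fun q hq => ⟨t, Finset.mem_singleton_self _, a3 q hq⟩).trans q4
    have h4 : (2 : ℝ) ≤ Q.card := by exact_mod_cast h2
    rw [div_le_div_iff_of_pos_right (Real.sqrt_pos.2 (Real.log_pos (by linarith))),
      mul_le_mul_iff_left₀ (by linarith)] at h3
    linarith

end Pool.Agent.Results.MP_ad7336_co.DoublingConstant
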