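import Pool.Agent.Lib.MP_ad7336_sd.Fin

set_option autoImplicit false

namespace Pool.Agent.Results.MP_ad7336_co.SmallDoubling

open Pool.Agent.Lib.MP_ad7336_co Pool.Agent.Lib.MP_ad7336_sd Filter

theorem result (K : ℝ) (hK : K < 8) (C : ℝ) :
    ∃ n₀ : ℕ, ∀ n : ℕ, n₀ ≤ n → ∃ P : Finset ℂ, P.card = n ∧
      (∀ p ∈ P, ∃ a b : ℤ,
        p = (a : ℂ) + (b : ℂ) * ((1 / 2 : ℂ) + ((Real.sqrt 3 / 2 : ℝ) : ℂ) * Complex.I)) ∧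
      ∀ Q T A : Finset ℂ, Q.card = n → (T.card : ℝ) ≤ C → (A.card : ℝ) ≤ C * n →
        ({z : ℂ | ∃ a ∈ A, ∃ b ∈ A, z = a + b}.ncard : ℝ) ≤ K * A.card →
        (∀ q ∈ Q, ∃ t ∈ T, ∃ a ∈ A, q = t + a) →
        {d : ℝ | ∃ p ∈ P, ∃ q ∈ P, p ≠ q ∧ d = dist p q}.ncard ≤
          {d : ℝ | ∃ p ∈ Q, ∃ q ∈ Q, p ≠ q ∧ d = dist p q}.ncard := by
  classical
  obtain ⟨H, ha, hb⟩ := exists_hex
  obtain ⟨n₀, h⟩ := eventually_atTop.1 (fin hK C ha hb one_pos)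
  refine ⟨n₀, fun n hn => ?_⟩
  obtain ⟨P, hP, hmin⟩ := (measure DD).wf.has_min {P : Finset ℂ | P.card = n ∧ ∀ p ∈ P, Tri p}
    ⟨(Finset.range n).image (fun k : ℕ => (k : ℂ)), by
      rw [Finset.card_image_of_injective _ Nat.cast_injective, Finset.card_range],
      Finset.forall_mem_image.2 fun k _ => ⟨k, 0, by simp⟩⟩
  refine ⟨P, hP.1, hP.2, fun Q T A h1 h2 h3 h4 h5 => ?_⟩
  obtain ⟨-, R, r1, r2, r3⟩ := h n hn Q T A h1 h2 h3 h4 h5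
  exact (not_lt.1 (hmin R ⟨r1, r2⟩)).trans r3

end Pool.Agent.Results.MP_ad7336_co.SmallDoubling
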